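import Mathlib

/-!
# Peeling lemma for multigraphs with heights

Abstract form of section 2 of `meta61_proof.md` (MP_37ff18_mp).  An *end* is a pair `(e, b)` of an
edge `e` and a Boolean `b`; `cp` is the vertex (component of the wall) of an end and `ht` its height.
-/

set_option autoImplicit false

open Finset

namespace Pool.Agent.Peel

variable {I E : Type*}

/-- the other end of the edge -/
def opp (a : E × Bool) : E × Bool := (a.1, !a.2)

/-- every closed chain through `m ≥ 2` different vertices along `m` different edges has total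
passage height at most `m K` -/
def Cyc (cp : E × Bool → I) (ht : E × Bool → ℝ) (K : ℝ) : Prop :=
  ∀ (m : ℕ) (f : ℕ → E × Bool), 2 ≤ m → f m = f 0 →
    (∀ k < m, cp (opp (f k)) = cp (f (k + 1))) →
    (∀ j < m, ∀ k < m, cp (f j) = cp (f k) → j = k) →
    (∀ j < m, ∀ k < m, (f j).1 = (f k).1 → j = k) →
    ∑ k ∈ range m, |ht (opp (f k)) - ht (f (k + 1))| ≤ m * K

/-- some vertex has all its ends (of edges in `S`) within `2 K` of one of them -/
lemma greedy {cp : E × Bool → I} {ht : E × Bool → ℝ} {K : ℝ} (hK : 0 ≤ K)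
    (hne : ∀ a, cp (opp a) ≠ cp a) {S : Finset E}
    (hS : S.Nonempty)
    (hc : ∀ (m : ℕ) (f : ℕ → E × Bool), 2 ≤ m → f m = f 0 → (∀ k, (f k).1 ∈ S) →
      (∀ k < m, cp (opp (f k)) = cp (f (k + 1))) →
      (∀ j < m, ∀ k < m, cp (f j) = cp (f k) → j = k) →
      (∀ j < m, ∀ k < m, (f j).1 = (f k).1 → j = k) →
      ∑ k ∈ range m, |ht (opp (f k)) - ht (f (k + 1))| ≤ m * K) :
    ∃ a : E × Bool, a.1 ∈ S ∧ ∀ b : E × Bool, b.1 ∈ S → cp b = cp a → |ht a - ht b| ≤ 2 * K := by
  classical
  by_contra hcon
  push Not at hcon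
  choose! g hgS hgc hgh using hcon
  obtain ⟨e₀, he₀⟩ := hS
  let w : ℕ → E × Bool := fun k => Nat.rec (e₀, false) (fun _ x => g (opp x)) k
  have w0 : w 0 = (e₀, false) := rfl
  have wS : ∀ k, (w k).1 ∈ S := by
    intro k
    induction k with
    | zero => exact he₀
    | succ k ih => exact hgS (opp (w k)) ih
  have wc : ∀ k, cp (opp (w k)) = cp (w (k + 1)) := fun k => (hgc (opp (w k)) (wS k)).symm
  have wh : ∀ k, 2 * K < |ht (opp (w k)) - ht (w (k + 1))| := fun k => hgh (opp (w k)) (wS k)
  -- a repeated vertex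
  have hfin : (Set.range (fun k => cp (w k))).Finite := by
    apply ((S ×ˢ (Finset.univ : Finset Bool)).image cp).finite_toSet.subset
    rintro _ ⟨k, rfl⟩
    simp only [coe_image, Set.mem_image, mem_coe, mem_product, mem_univ, and_true]
    exact ⟨w k, wS k, rfl⟩
  have hex : ∃ k, ∃ j, j < k ∧ cp (w j) = cp (w k) := by
    have := Set.not_injOn_infinite_finite_image (f := fun k => cp (w k)) (s := Set.univ)
      Set.infinite_univ (by rw [Set.image_univ]; exact hfin)
    simp only [Set.InjOn, Set.mem_univ, forall_true_left, not_forall] at this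
    obtain ⟨a, b, hab, hne'⟩ := this
    rcases lt_or_gt_of_ne hne' with h | h
    · exact ⟨b, a, h, hab⟩
    · exact ⟨a, b, h, hab.symm⟩
  obtain ⟨k, ⟨j, hjk, hjc⟩, hmin⟩ : ∃ k, (∃ j, j < k ∧ cp (w j) = cp (w k)) ∧
      ∀ k' < k, ¬ ∃ j, j < k' ∧ cp (w j) = cp (w k') :=
    ⟨Nat.find hex, Nat.find_spec hex, fun k' hk' => Nat.find_min hex hk'⟩
  have hdist : ∀ a < k, ∀ b < k, cp (w a) = cp (w b) → a = b := by
    intro a ha b hb hab
    rcases lt_trichotomy a b with h | h | h
    · exact absurd ⟨a, h, hab⟩ (hmin b hb)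
    · exact h
    · exact absurd ⟨b, h, hab.symm⟩ (hmin a ha)
  obtain ⟨m, rfl⟩ : ∃ m, k = j + m := ⟨k - j, by omega⟩
  have hm2 : 2 ≤ m := by
    by_contra h
    have h1 : m = 1 := by omega
    subst h1
    exact hne (w j) ((wc j).trans hjc.symm)
  let f : ℕ → E × Bool := fun l => if l < m then w (j + l) else w j
  have hf : ∀ l, l < m → f l = w (j + l) := fun l hl => if_pos hl
  have hfm : f m = w j := if_neg (lt_irrefl m)
  have hf0 : f 0 = w j := by rw [hf 0 (by omega)]; rfl
  have hfS : ∀ l, (f l).1 ∈ S := by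
    intro l
    by_cases hl : l < m
    · rw [hf l hl]; exact wS _
    · have : f l = w j := if_neg hl
      rw [this]; exact wS _
  have hstep : ∀ l < m, cp (opp (f l)) = cp (f (l + 1)) := by
    intro l hl
    rw [hf l hl, wc]
    by_cases h : l + 1 < m
    · rw [hf _ h]; rfl
    · have hl1 : l + 1 = m := by omega
      rw [hl1, hfm, hjc, ← hl1]; rfl
  have hinj : ∀ a < m, ∀ b < m, cp (f a) = cp (f b) → a = b := by
    intro a ha b hb hab
    rw [hf a ha, hf b hb] at hab
    have := hdist (j + a) (by omega) (j + b) (by omega) hab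
    omega
  have key : ∀ a < m, ∀ b < m, a + 1 < m → (f a).1 = (f b).1 → a ≠ b → False := by
    intro a ha b hb ha1 hab hne'
    have hopp : f b = opp (f a) := by
      have h2 : (f a).2 ≠ (f b).2 := by
        intro h
        exact hne' (hinj a ha b hb (by rw [Prod.ext hab h]))
      refine Prod.ext hab.symm ?_
      simp only [opp]
      cases h3 : (f a).2 <;> cases h4 : (f b).2 <;> simp_all
    have hb1 : b = a + 1 := by
      apply hinj b hb (a + 1) ha1
      rw [hopp, hstep a ha]
    subst hb1
    rw [hf _ ha1, hf _ ha] at hopp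
    have := wh (j + a)
    rw [← hopp] at this
    have h5 : w (j + (a + 1)) = w (j + a + 1) := rfl
    rw [h5, sub_self, abs_zero] at this
    linarith
  have hedge : ∀ a < m, ∀ b < m, (f a).1 = (f b).1 → a = b := by
    intro a ha b hb hab
    by_contra hne'
    by_cases ha1 : a + 1 < m
    · exact key a ha b hb ha1 hab hne'
    · exact key b hb a ha (by omega) hab.symm (fun h => hne' h.symm)
  have hsum := hc m f hm2 (by rw [hfm, hf0]) hfS hstep hinj hedge
  obtain ⟨n, rfl⟩ : ∃ n, m = n + 1 := ⟨m - 1, by omega⟩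
  rw [Finset.sum_range_succ] at hsum
  have h1 : (n : ℝ) * (2 * K) < ∑ l ∈ range n, |ht (opp (f l)) - ht (f (l + 1))| := by
    have hn : (range n).Nonempty := by
      rw [Finset.nonempty_range_iff]; omega
    calc (n : ℝ) * (2 * K) = ∑ _l ∈ range n, 2 * K := by simp
      _ < _ := by
        apply Finset.sum_lt_sum_of_nonempty hn
        intro l hl
        have hl' : l < n := Finset.mem_range.1 hl
        rw [hf l (by omega), hf (l + 1) (by omega)]
        exact wh (j + l)
  have h2 := abs_nonneg (ht (opp (f n)) - ht (f (n + 1)))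
  have h3 : (1 : ℝ) ≤ n := by exact_mod_cast (by omega : 1 ≤ n)
  push_cast at hsum
  nlinarith

/-- PEELING: every edge can be assigned to one of its two ends so that the ends assigned to the same
vertex have heights within `4 K` of each other -/
theorem peel {cp : E × Bool → I} {ht : E × Bool → ℝ} {K : ℝ} (hK : 0 ≤ K)
    (hne : ∀ a, cp (opp a) ≠ cp a) (hc : Cyc cp ht K) (S : Finset E) :
    ∃ κ : E → Bool, ∀ e ∈ S, ∀ e' ∈ S, cp (e, κ e) = cp (e', κ e') →
      |ht (e, κ e) - ht (e', κ e')| ≤ 4 * K := by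
  classical
  induction S using Finset.strongInduction with
  | H S ih =>
    rcases S.eq_empty_or_nonempty with rfl | hS
    · exact ⟨fun _ => false, by simp⟩
    obtain ⟨a, haS, ha⟩ := greedy (cp := cp) (ht := ht) hK hne hS
      (fun m f h1 h2 _ h3 h4 h5 => hc m f h1 h2 h3 h4 h5)
    let S' := S.filter (fun e => cp (e, false) ≠ cp a ∧ cp (e, true) ≠ cp a)
    have hsub : S' ⊂ S := by
      refine Finset.filter_ssubset.2 ⟨a.1, haS, ?_⟩
      intro h
      rcases a with ⟨e, b⟩
      cases b
      · exact h.1 rfl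
      · exact h.2 rfl
    obtain ⟨κ, hκ⟩ := ih S' hsub
    refine ⟨fun e => if e ∈ S' then κ e else (if cp (e, false) = cp a then false else true), ?_⟩
    have hmem : ∀ e ∈ S, e ∉ S' →
        cp (e, if cp (e, false) = cp a then false else true) = cp a := by
      intro e he he'
      by_cases h : cp (e, false) = cp a
      · rw [if_pos h]; exact h
      · rw [if_neg h]
        by_contra h2
        exact he' (Finset.mem_filter.2 ⟨he, h, h2⟩)
    have hnot : ∀ e ∈ S', ∀ b, cp (e, b) ≠ cp a := by
      intro e he b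
      have := (Finset.mem_filter.1 he).2
      cases b
      · exact this.1
      · exact this.2
    intro e he e' he' hcc
    dsimp only at hcc ⊢
    by_cases h1 : e ∈ S' <;> by_cases h2 : e' ∈ S'
    · rw [if_pos h1, if_pos h2] at hcc ⊢
      exact hκ e h1 e' h2 hcc
    · rw [if_pos h1, if_neg h2, hmem e' he' h2] at hcc
      exact absurd hcc (hnot e h1 _)
    · rw [if_neg h1, if_pos h2, hmem e he h1] at hcc
      exact absurd hcc.symm (hnot e' h2 _)
    · rw [if_neg h1, if_neg h2] at hcc ⊢
      have k1 := ha (e, if cp (e, false) = cp a then false else true) he (hmem e he h1)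
      have k2 := ha (e', if cp (e', false) = cp a then false else true) he' (hmem e' he' h2)
      rw [abs_le] at k1 k2 ⊢
      constructor <;> linarith

end Pool.Agent.Peel
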